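import Pool.Agent.H90.CfC

namespace Pool.Agent.Results.MP_e522d8_an.TypeB

open Pool.Agent.H90.Cf

theorem result : ∃ E : Set ℂ, ConvSetB E ∧ ¬ Bdd (VB E) := ⟨EE, conv, unb⟩

end Pool.Agent.Results.MP_e522d8_an.TypeB
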